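import Pool.Agent.Lib.MP_dee751_an.QMain
import Pool.Agent.Lib.MP_45cb44_an.SP.Main

/-! Transfer of invariant subspaces from trace class perturbations of semi-normal operators. -/

namespace Pool.Agent.Lib.MP_dee751_an.SP

open scoped InnerProductSpace
open Pool.Agent.Lib.MP_45cb44_an Pool.Agent.Lib.MP_45cb44_an.Hy Pool.Agent.Lib.MP_45cb44_an.SP
open Pool.Agent.Lib.MP_dee751_an.Q

variable {H : Type*} [NormedAddCommGroup H] [InnerProductSpace ℂ H] [CompleteSpace H]
  {S A B R : H →L[ℂ] H} {b : HilbertBasis ℕ ℂ H}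

lemma pr_hypo (hA : HS b A) (hB : HS b B) (h : ∀ x, ‖star S x‖ ≤ ‖S x‖)
    (hN : star S * S ≠ S * star S) (hq : QS (S + star A * B) R) : Pr (S + star A * B) R := by
  have hK : HS b (star B * A) := hA.left _
  refine pr_one_sided (K := star (A * S) * (A * S) + star B * B +
      star (B * star S) * (B * star S) + star A * A + star (star B * A) * (star B * A))
    (S := S + star A * B) b
    (((((pos_sq _).add (pos_sq _)).add (pos_sq _)).add (pos_sq _)).add (pos_sq _)) ?_
    (Or.inl ?_) (Or.inl rfl) (fun h0 => hN (normal_of_trace (b := b) h ?_)) hq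
  · simpa only [add_apply, inner_add_right] using
      (((((hA.right S).summ.add hB.summ).add (hB.right (star S)).summ).add hA.summ).add hK.summ)
  · have e : star (A * S) * (A * S) + star B * B + star (B * star S) * (B * star S) + star A * A +
        star (star B * A) * (star B * A) + (star (S + star A * B) * (S + star A * B) -
          (S + star A * B) * star (S + star A * B)) =
        star (A * S + B) * (A * S + B) + star (B * star S - A) * (B * star S - A) +
          star (star A * B) * (star A * B) + (star S * S - S * star S) := by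
      simp only [star_add, star_sub, star_mul, star_star]
      noncomm_ring
    rw [e]
    exact (((pos_sq _).add (pos_sq _)).add (pos_sq _)).add (pos_comm h)
  · have h1 := Complex.hasSum_re h0
    simp only [re_inner_comm, Complex.zero_re] at h1
    have h2 := h1.sub (trace_zero hA hB S)
    simpa only [sub_sub_cancel, sub_zero] using h2

lemma pr_of_hyper {T : H →L[ℂ] H} {M : Submodule ℂ H} (h1 : IsClosed (M : Set H)) (h2 : M ≠ ⊥)
    (h3 : M ≠ ⊤) (h4 : ∀ S : H →L[ℂ] H, Commute S T → ∀ x ∈ M, S x ∈ M) (hR : R * T = T * R) :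
    Pr T R := by
  have := h1.completeSpace_coe
  obtain ⟨x, hx, x0⟩ := (Submodule.ne_bot_iff M).1 h2
  obtain ⟨y, hy, y0⟩ := (Submodule.ne_bot_iff Mᗮ).1 fun e => h3 (Submodule.orthogonal_eq_bot_iff.1 e)
  exact ⟨x, y, x0, y0, fun k => hy _ (h4 _ ((Commute.refl T).pow_left k) _ (h4 R hR x hx))⟩

theorem pr (hd : ¬FiniteDimensional ℂ H) {K : H →L[ℂ] H}
    (h : (∀ x, ‖star S x‖ ≤ ‖S x‖) ∨ ∀ x, ‖S x‖ ≤ ‖star S x‖) (u v : ℕ → H)
    (hs : Summable fun n => ‖u n‖ * ‖v n‖) (hK : ∀ x, HasSum (fun n => ⟪v n, x⟫_ℂ • u n) (K x))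
    (hq : QS (S + K) R) : Pr (S + K) R := by
  by_cases hN : star S * S = S * star S
  · by_cases hc : ∀ a : ℂ, S + K ≠ a • 1
    · obtain ⟨M, h1, h2, h3, h4⟩ := TC.exists_hyperinvariant hN u v hs hK hc
      exact pr_of_hyper h1 h2 h3 h4 hq.comm
    · push Not at hc
      obtain ⟨a, ha⟩ := hc
      refine pr_normal ?_ hd hq.comm
      rw [ha, star_smul, star_one]
      simp only [smul_mul_assoc, mul_smul_comm, one_mul, smul_smul, mul_comm]
  obtain ⟨e, he⟩ := hq.c1
  obtain ⟨b, -⟩ := he.exists_basis hd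
  obtain ⟨A, B, hA, hB, rfl⟩ := factor b u v hs hK
  rcases h with h | h
  · exact pr_hypo hA hB h hN hq
  · have h1 := hq.adj
    refine Pr.adj hq.comm ?_
    rw [star_add, star_mul, star_star] at h1 ⊢
    refine pr_hypo (S := star S) hB hA (by rwa [star_star]) ?_ h1
    rw [star_star]
    exact fun e => hN e.symm

end Pool.Agent.Lib.MP_dee751_an.SP
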